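import Mathlib

namespace Pool.Agent.Results.MP_d100af_an.Partner

open Set

/-- A Cantor set in the line. -/
def IsCantor (K : Set ℝ) : Prop :=
  K.Nonempty ∧ IsCompact K ∧ IsTotallyDisconnected K ∧ Preperfect K

/-- The tree distance set of `K × K'` for the graph `T`, as a set of vectors indexed by edges. -/
def treeDist {V : Type} (T : SimpleGraph V) (K K' : Set ℝ) : Set (T.edgeSet → ℝ) :=
  {d | ∃ y : V → EuclideanSpace ℝ (Fin 2), Function.Injective y ∧ (∀ v, y v 0 ∈ K ∧ y v 1 ∈ K') ∧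
    ∀ u v (h : T.Adj u v), d ⟨s(u, v), h⟩ = dist (y u) (y v)}

lemma avoid (O : ℕ → Set (ℕ → Bool)) (h : ∀ m, ∀ v ∈ O m, ∀ w ∈ O m, v m = w m) :
    ∃ w, ∀ m, w ∉ O m := by
  classical
  refine ⟨fun m => if ∃ v ∈ O m, v m = true then false else true, fun m hm => ?_⟩
  by_cases e : ∃ v ∈ O m, v m = true
  · obtain ⟨v, hv, e'⟩ := id e
    have := h m v hv _ hm
    simp [e, e'] at this
  · exact e ⟨_, hm, if_neg e⟩

lemma sepd (σ : (ℕ → Bool) → ℝ) (hc : Continuous σ) (hi : Function.Injective σ) (m : ℕ) :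
    ∃ d > 0, ∀ v w : ℕ → Bool, v m ≠ w m → d ≤ |σ v - σ w| := by
  have hK : IsCompact {z : (ℕ → Bool) × (ℕ → Bool) | z.1 m ≠ z.2 m} := by
    refine IsClosed.isCompact ?_
    exact (isClosed_discrete {b : Bool × Bool | b.1 ≠ b.2}).preimage
      (f := fun z : (ℕ → Bool) × (ℕ → Bool) => (z.1 m, z.2 m)) (by fun_prop)
  obtain ⟨d, h0, hd⟩ := hK.exists_forall_le' (f := fun z => |σ z.1 - σ z.2|) (a := 0) (by fun_prop)
    fun z hz => abs_pos.2 (sub_ne_zero.2 fun e => hz (by rw [hi e]))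
  exact ⟨d, h0, fun v w h => hd (v, w) h⟩

lemma embed {P : Type*} (R : P → P → ℝ → Prop) (J : Set ℝ) [Nonempty P]
    (hs : ∀ p q t, R p q t → R q p t)
    (key : ∀ p, ∀ t ∈ J, ∀ F : Set P, F.Finite → ∃ q ∉ F, R p q t) (n : ℕ) :
    ∀ (V : Type) [Fintype V] (T : SimpleGraph V), Fintype.card V = n → T.IsTree →
      ∀ t : Sym2 V → ℝ, (∀ e, t e ∈ J) → ∃ y : V → P, Function.Injective y ∧
        ∀ u v, T.Adj u v → R (y u) (y v) (t s(u, v)) := by
  classical
  induction n using Nat.strong_induction_on with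
  | _ n ih =>
    intro V _ T hn hT t ht
    rcases subsingleton_or_nontrivial V with hV | hV
    · exact ⟨fun _ => Classical.arbitrary P, Function.injective_of_subsingleton _,
        fun u v h => absurd (Subsingleton.elim u v) h.ne⟩
    obtain ⟨v, hv⟩ := hT.exists_vert_degree_one_of_nontrivial
    obtain ⟨u, hu, hu'⟩ := SimpleGraph.degree_eq_one_iff_existsUnique_adj.1 hv
    obtain ⟨y, h1, h2⟩ := ih _ (hn ▸ Fintype.card_subtype_lt (x := v) (by simp)) ({v}ᶜ : Set V)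
      (T.induce {v}ᶜ) rfl ⟨hT.connected.induce_compl_singleton_of_degree_eq_one hv,
        hT.isAcyclic.induce _⟩ (fun e => t (e.map Subtype.val)) fun e => ht _
    obtain ⟨q, hq, hq'⟩ := key (y ⟨u, hu.ne'⟩) _ (ht s(u, v)) (range y) (finite_range y)
    refine ⟨fun x => if h : x = v then q else y ⟨x, h⟩, fun a b hab => ?_, fun a b hab => ?_⟩
    · by_cases ha : a = v <;> by_cases hb : b = v <;> simp only [ha, hb, dif_pos, dif_neg,
        not_false_eq_true] at hab ⊢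
      · exact absurd ⟨_, hab.symm⟩ hq
      · exact absurd ⟨_, hab⟩ hq
      · exact congrArg Subtype.val (h1 hab)
    · by_cases ha : a = v <;> by_cases hb : b = v
      · exact absurd (ha.trans hb.symm) hab.ne
      · subst ha
        obtain rfl := hu' b hab
        simp only [dif_pos, dif_neg hb, Sym2.eq_swap (a := a)]
        exact hs _ _ _ hq'
      · subst hb
        obtain rfl := hu' a hab.symm
        simp only [dif_pos, dif_neg ha]
        exact hq'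
      · simp only [dif_neg ha, dif_neg hb]
        exact h2 ⟨a, ha⟩ ⟨b, hb⟩ hab

theorem result (K : Set ℝ) (hK : IsCantor K) : ∃ K' : Set ℝ, IsCantor K' ∧
    ∀ (V : Type) [Fintype V] (T : SimpleGraph V), T.IsTree →
      (interior (treeDist T K K')).Nonempty := by
  classical
  obtain ⟨hne, hc, -, hp⟩ := hK
  have hP : Perfect K := ⟨hc.isClosed, hp⟩
  obtain ⟨p, hpK, q, hqK, hpq⟩ : ∃ p ∈ K, ∃ q ∈ K, p < q := by
    obtain ⟨x, hx⟩ := hne
    obtain ⟨y, hy, hxy⟩ := (accPt_iff_nhds.1 (hp x hx) univ Filter.univ_mem)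
    rcases lt_or_gt_of_ne hxy with h | h
    · exact ⟨y, hy.2, x, hx, h⟩
    · exact ⟨x, hx, y, hy.2, h⟩
  set ρ := (q - p) / 3 with hρ
  have ρ0 : 0 < ρ := by linarith
  obtain ⟨a1, a2⟩ := hP.closure_nhds_inter p hpK (show p ∈ Iio (p + ρ) by simpa) isOpen_Iio
  obtain ⟨b1, b2⟩ := hP.closure_nhds_inter q hqK (show q ∈ Ioi (p + 2 * ρ) by
    simp only [mem_Ioi]; linarith) isOpen_Ioi
  obtain ⟨σ0, r0, c0, i0⟩ := a1.exists_nat_bool_injection a2
  obtain ⟨σ1, r1, c1, i1⟩ := b1.exists_nat_bool_injection b2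
  have m0 : ∀ w, σ0 w ∈ K ∧ σ0 w ≤ p + ρ := fun w =>
    ⟨closure_minimal inter_subset_right hc.isClosed (r0 ⟨w, rfl⟩),
      closure_minimal (inter_subset_left.trans Iio_subset_Iic_self) isClosed_Iic (r0 ⟨w, rfl⟩)⟩
  have m1 : ∀ w, σ1 w ∈ K ∧ p + 2 * ρ ≤ σ1 w := fun w =>
    ⟨closure_minimal inter_subset_right hc.isClosed (r1 ⟨w, rfl⟩),
      closure_minimal (inter_subset_left.trans Ioi_subset_Ici_self) isClosed_Ici (r1 ⟨w, rfl⟩)⟩
  choose d0 d0p hd0 using sepd σ0 c0 i0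
  choose d1 d1p hd1 using sepd σ1 c1 i1
  obtain ⟨L, L0, hL⟩ : ∃ L > 0, ∀ x ∈ K, ∀ a ∈ K, |x - a| ≤ L := by
    obtain ⟨L, hL⟩ := Metric.isBounded_iff.1 hc.isBounded
    exact ⟨max L 1, by positivity, fun x hx a ha => le_max_of_le_left (hL hx ha)⟩
  let ε : ℕ → ℝ := fun m => min (d0 m) (d1 m) * ρ / (4 * L)
  have ε0 : ∀ m, 0 < ε m := fun m => by have := lt_min (d0p m) (d1p m); positivity
  obtain ⟨e, he⟩ := exists_surjective_nat ℚ
  let X := Icc (-(2 * L)) (2 * L) \ ⋃ n, Ioo (e n - ε (2 * n)) (e n + ε (2 * n))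
  have hX : IsClosed X := isClosed_Icc.sdiff (isOpen_iUnion fun n => isOpen_Ioo)
  obtain ⟨C0, D, hC0, hD, hXD⟩ := exists_countable_union_perfect_of_isClosed hX
  have hDX : D ⊆ X := hXD ▸ subset_union_right
  have key : ∀ a, (a ∈ range σ0 ∪ range σ1) → ∀ b ∈ Icc (-(2 * L)) (2 * L), ∀ t ∈ Ioo L (2 * L),
      ∀ C : Set ℝ, C.Countable → ∃ a' ∈ range σ0 ∪ range σ1, ∃ b' ∈ D, b' ∉ C ∧
        (a - a') ^ 2 + (b - b') ^ 2 = t ^ 2 := by
    intro a ha b hb t ht C hC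
    obtain ⟨σ, hσ, hσK, hsep⟩ : ∃ σ : (ℕ → Bool) → ℝ, range σ ⊆ range σ0 ∪ range σ1 ∧
        (∀ w, |a - σ w| ≤ L) ∧ ∀ m v w, v m ≠ w m →
          min (d0 m) (d1 m) * (2 * ρ) ≤ |(a - σ v) ^ 2 - (a - σ w) ^ 2| := by
      rcases ha with ⟨z, rfl⟩ | ⟨z, rfl⟩
      · refine ⟨σ1, subset_union_right, fun w => hL _ (m0 z).1 _ (m1 w).1, fun m v w h => ?_⟩
        rw [show (σ0 z - σ1 v) ^ 2 - (σ0 z - σ1 w) ^ 2 =
          (σ1 v - σ1 w) * (σ1 v + σ1 w - 2 * σ0 z) by ring, abs_mul]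
        refine mul_le_mul ((min_le_right _ _).trans (hd1 m v w h)) (le_abs.2 (.inl ?_))
          (by positivity) (abs_nonneg _)
        linarith [(m0 z).2, (m1 v).2, (m1 w).2]
      · refine ⟨σ0, subset_union_left, fun w => hL _ (m1 z).1 _ (m0 w).1, fun m v w h => ?_⟩
        rw [show (σ1 z - σ0 v) ^ 2 - (σ1 z - σ0 w) ^ 2 =
          (σ0 v - σ0 w) * (σ0 v + σ0 w - 2 * σ1 z) by ring, abs_mul]
        refine mul_le_mul ((min_le_left _ _).trans (hd0 m v w h)) (le_abs.2 (.inr ?_))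
          (by positivity) (abs_nonneg _)
        linarith [(m1 z).2, (m0 v).2, (m0 w).2]
    let g : (ℕ → Bool) → ℝ := fun w => √(t ^ 2 - (a - σ w) ^ 2)
    have g2 : ∀ w, g w ^ 2 = t ^ 2 - (a - σ w) ^ 2 := fun w => Real.sq_sqrt (by
      have := sq_le_sq' (neg_le_of_abs_le (hσK w)) (le_of_abs_le (hσK w))
      nlinarith [ht.1])
    have g0 : ∀ w, 0 ≤ g w := fun w => Real.sqrt_nonneg _
    have g1 : ∀ w, g w ≤ 2 * L := fun w => by
      refine abs_le_of_sq_le_sq' ?_ (by positivity) |>.2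
      nlinarith [g2 w, ht.1, ht.2, sq_nonneg (a - σ w)]
    have gs : ∀ m v w, v m ≠ w m → 2 * ε m ≤ |g v - g w| := by
      intro m v w h
      have h1 := hsep m v w h
      rw [show (a - σ v) ^ 2 - (a - σ w) ^ 2 = (g v - g w) * -(g v + g w) by
        linear_combination g2 v - g2 w, abs_mul, abs_neg, abs_of_nonneg (add_nonneg (g0 v) (g0 w))] at h1
      simp only [ε]
      rw [← mul_div_assoc, div_le_iff₀ (by positivity)]
      nlinarith [abs_nonneg (g v - g w), g1 v, g1 w]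
    obtain ⟨β, hβ1, hβ2, hβ3⟩ : ∃ β : (ℕ → Bool) → ℝ, (∀ w, β w ∈ Icc (-(2 * L)) (2 * L)) ∧
        (∀ w, (b - β w) ^ 2 = g w ^ 2) ∧ ∀ v w, |β v - β w| = |g v - g w| := by
      rcases le_total b 0 with h | h
      · exact ⟨fun w => b + g w, fun w => ⟨by linarith [hb.1, g0 w], by linarith [g1 w]⟩,
          fun w => by ring, fun v w => by simp⟩
      · exact ⟨fun w => b - g w, fun w => ⟨by linarith [g1 w], by linarith [hb.2, g0 w]⟩,
          fun w => by ring, fun v w => by simp [abs_sub_comm]⟩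
    obtain ⟨c, hc⟩ := ((hC0.union hC).insert 0).exists_eq_range (insert_nonempty _ _)
    obtain ⟨w, hw⟩ := avoid (fun m => if m % 2 = 0 then
        {w | β w ∈ Ioo (e (m / 2) - ε m) (e (m / 2) + ε m)} else {w | β w = c (m / 2)}) (by
      intro m v hv w hw
      by_contra h
      have h1 := gs m v w h
      rw [← hβ3] at h1
      split_ifs at hv hw
      · exact absurd h1 (not_le.2 (abs_lt.2 ⟨by linarith [hv.1, hw.2], by linarith [hv.2, hw.1]⟩))
      · rw [show β v = β w from hv.trans hw.symm, sub_self, abs_zero] at h1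
        linarith [ε0 m])
    have h1 : β w ∉ insert 0 (C0 ∪ C) := by
      rw [hc]
      rintro ⟨n, hn⟩
      refine hw (2 * n + 1) ?_
      rw [if_neg (by omega), show (2 * n + 1) / 2 = n by omega]
      exact hn.symm
    have h2 : β w ∈ X := by
      refine ⟨hβ1 w, fun h => ?_⟩
      obtain ⟨n, hn⟩ := mem_iUnion.1 h
      refine hw (2 * n) ?_
      rw [if_pos (by omega), show 2 * n / 2 = n by omega]
      exact hn
    rw [hXD] at h2
    exact ⟨σ w, hσ ⟨w, rfl⟩, β w, h2.resolve_left fun h => h1 (.inr (.inl h)),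
      fun h => h1 (.inr (.inr h)), by rw [hβ2, g2]; ring⟩
  have tJ : 3 / 2 * L ∈ Ioo L (2 * L) := ⟨by linarith, by linarith⟩
  obtain ⟨a0, ha0, b0, hb0, -⟩ := key (σ0 default) (.inl ⟨_, rfl⟩) 0 ⟨by linarith, by linarith⟩ _ tJ
    ∅ countable_empty
  refine ⟨D, ⟨⟨b0, hb0⟩, isCompact_Icc.of_isClosed_subset hD.closed (hDX.trans diff_subset), ?_,
    hD.acc⟩, fun V _ T hT => ?_⟩
  · intro s hs hcon x hx y hy
    wlog h : x < y generalizing x y
    · by_contra h'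
      exact h' (this hy hx (lt_of_le_of_ne (not_lt.1 h) (Ne.symm h'))).symm
    obtain ⟨r, r1, r2⟩ := exists_rat_btwn h
    obtain ⟨n, rfl⟩ := he r
    exact absurd (mem_iUnion.2 ⟨n, by constructor <;> linarith [ε0 (2 * n)]⟩)
      (hDX (hs (hcon.Icc_subset hx hy ⟨r1.le, r2.le⟩))).2
  · let P := {z : ℝ × ℝ // z.1 ∈ range σ0 ∪ range σ1 ∧ z.2 ∈ D}
    haveI : Nonempty P := ⟨⟨(a0, b0), ha0, hb0⟩⟩
    have emb := embed (P := P) (fun z z' t => (z.1.1 - z'.1.1) ^ 2 + (z.1.2 - z'.1.2) ^ 2 = t ^ 2)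
      (Ioo L (2 * L)) (fun _ _ _ h => by linarith) (fun z t ht F hF => by
        obtain ⟨a', h1, b', h2, h3, h4⟩ := key z.1.1 z.2.1 z.1.2 (hDX z.2.2).1 t ht _
          (hF.image fun z => z.1.2).countable
        exact ⟨⟨(a', b'), h1, h2⟩, fun h => h3 ⟨_, h, rfl⟩, h4⟩) _ V T rfl hT
    refine ⟨fun _ => 3 / 2 * L, mem_interior.2 ⟨univ.pi fun _ => Ioo L (2 * L), fun d hd => ?_,
      isOpen_set_pi finite_univ fun _ _ => isOpen_Ioo, fun _ _ => tJ⟩⟩
    obtain ⟨y, h1, h2⟩ := emb (fun e => if h : e ∈ T.edgeSet then d ⟨e, h⟩ else 3 / 2 * L) fun e => by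
      split_ifs with h
      · exact hd _ trivial
      · exact tJ
    refine ⟨fun v => !₂[(y v).1.1, (y v).1.2], fun u v h => h1 (Subtype.ext (Prod.ext ?_ ?_)),
      fun v => ⟨?_, (y v).2.2⟩, fun u v h => ?_⟩
    · exact congrArg (fun z : EuclideanSpace ℝ (Fin 2) => z 0) h
    · exact congrArg (fun z : EuclideanSpace ℝ (Fin 2) => z 1) h
    · show (y v).1.1 ∈ K
      rcases (y v).2.1 with ⟨w, hw⟩ | ⟨w, hw⟩
      · exact hw ▸ (m0 w).1
      · exact hw ▸ (m1 w).1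
    · have := h2 u v h
      rw [dif_pos (show s(u, v) ∈ T.edgeSet from h)] at this
      rw [EuclideanSpace.dist_eq, Fin.sum_univ_two]
      simp only [Real.dist_eq, sq_abs, Matrix.cons_val_zero, Matrix.cons_val_one]
      rw [this, Real.sqrt_sq (L0.trans (hd _ trivial).1).le]

end Pool.Agent.Results.MP_d100af_an.Partner
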